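import Pool.Agent.Q240.EX.Stm2
import Pool.Agent.Q240.CD.AllZ
import Pool.Agent.Y23.Z.Z5

set_option autoImplicit false

/-! # Project EX (helper240), job Nu: convergence of the extremal functions (helper96) -/

open Filter Topology
open Pool.Agent.Q240.EX
open Pool.Agent.Q240.CD

namespace Pool.Agent.Q96.EX

lemma hd_of_hn {a : ℝ} {ν : ℕ∞} {f : ℝ → ℂ} (hf : Y23.G.F.Hn a ν f) : Y23.Hd a f :=
  (Y23.Z.Hd_eq a f).1 hf.hd

lemma hn_mono {a : ℝ} {ν ν' : ℕ∞} (h : ν ≤ ν') {f : ℝ → ℂ} (hf : Y23.G.F.Hn a ν f) : Y23.G.F.Hn a ν' f :=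
  ⟨hf.1, hf.2.1, fun k hk => hf.2.2 k (lt_of_le_of_lt h hk)⟩

lemma hn_top {a : ℝ} {f : ℝ → ℂ} (hf : Y23.Hd a f) : Y23.G.F.Hn a ⊤ f :=
  ⟨hf.1, ((Y23.Z.Hd_eq a f).2 hf).2, fun _ hk => absurd hk not_top_lt⟩

/-- the smallest eigenvalue is positive under the Riemann hypothesis -/
lemma lam_pos (hRH : RHy) {a : ℝ} (ha : 0 < a) : ∃ l : ℝ, 0 < l ∧ ∀ f : ℝ → ℂ, Y23.Hd a f → l * Y23.N2 f ≤ Y23.QQ f := by
  obtain ⟨g, hg, hN⟩ := Y23.exists_ground ha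
  refine ⟨Y23.GM a, ?_, fun f hf => ?_⟩
  · by_contra hcon
    push Not at hcon
    have h1 : Y23.QQ g = Y23.GM a * Y23.N2 g := by
      have := hg.2
      unfold Y23.bq at this
      linarith
    have h2 : Y23.QQ g ≤ 0 := by
      rw [h1]
      exact mul_nonpos_of_nonpos_of_nonneg hcon hN.le
    have h3 := a_posZ hRH a ⊤ g ha (hn_top hg.1) h2
    rw [Y23.N2_zero_of_TT hg.1.1 h3] at hN
    exact lt_irrefl _ hN
  · have := Y23.bq_nonneg ha hf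
    unfold Y23.bq at this
    linarith

lemma QQ_sub {a : ℝ} (ha : 0 < a) {f g : ℝ → ℂ} (hf : Y23.Hd a f) (hg : Y23.Hd a g) :
    Y23.QQ (fun x => f x - g x) = Y23.QQ f - 2 * (Y23.QB f g).re + Y23.QQ g := by
  have h := Y23.bq_line ha 0 hf hg (-1)
  have e : (fun x => f x + (-1 : ℂ) * g x) = fun x => f x - g x := by funext x; ring
  rw [e] at h
  unfold Y23.bq Y23.BB at h
  simp only [zero_mul, sub_zero, Complex.ofReal_zero, map_neg, map_one, neg_mul, one_mul, Complex.neg_re, norm_neg, norm_one,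
    one_pow] at h
  linarith

theorem nu (hDn : S_Dn) (hE : S_XtE) (hP : S_XtP) : S_Nu := by
  intro hRH a ha R ε hε
  obtain ⟨F0, hF0⟩ := hE hRH a ⊤ ha
  obtain ⟨hQ0, huniq, -, -, -, horth⟩ := hP hRH a ⊤ F0 ha hF0
  obtain ⟨l, hl, hlow⟩ := lam_pos hRH ha
  obtain ⟨C1, hC1, hSS⟩ := Y23.dom_of_Hd ha
  have hF0d : Y23.Hd a F0 := hd_of_hn hF0.1
  obtain ⟨K, hK⟩ : ∃ K : ℝ, K = 2 * a * Real.exp (2 * a * R) := ⟨_, rfl⟩
  have hK0 : 0 < K := by rw [hK]; positivity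
  obtain ⟨η, hη⟩ : ∃ η : ℝ, η = min ε (l * ε ^ 2 / K) := ⟨_, rfl⟩
  have hη0 : 0 < η := by rw [hη]; exact lt_min hε (by positivity)
  have hη1 : η ≤ ε := by rw [hη]; exact min_le_left _ _
  have hη2 : K * η ≤ l * ε ^ 2 := by
    have : η ≤ l * ε ^ 2 / K := by rw [hη]; exact min_le_right _ _
    rw [le_div_iff₀ hK0] at this
    linarith
  obtain ⟨L0, hL0⟩ : ∃ L0 : ℝ, L0 = Y23.LL F0 := ⟨_, rfl⟩
  have hL00 : 0 ≤ L0 := by rw [hL0]; exact Y23.LL_nonneg F0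
  have hpi := Real.pi_pos
  obtain ⟨D, hD⟩ : ∃ D : ℝ, D = C1 * (8 + 8 * (a / Real.pi) * L0) := ⟨_, rfl⟩
  have hD0 : 0 < D := by rw [hD]; positivity
  obtain ⟨δ, hδ⟩ : ∃ δ : ℝ, δ = min (Real.pi / (4 * a)) (η / D) := ⟨_, rfl⟩
  have hδ0 : 0 < δ := by rw [hδ]; exact lt_min (by positivity) (by positivity)
  have hδ1 : a / Real.pi * δ ≤ 1 / 4 := by
    have h1 : δ ≤ Real.pi / (4 * a) := by rw [hδ]; exact min_le_left _ _
    calc a / Real.pi * δ ≤ a / Real.pi * (Real.pi / (4 * a)) := by gcongr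
      _ = 1 / 4 := by field_simp
  have hδ2 : D * δ ≤ η := by
    have h1 : δ ≤ η / D := by rw [hδ]; exact min_le_right _ _
    rw [le_div_iff₀ hD0] at h1
    linarith
  obtain ⟨n, h, hh, hLL⟩ := hDn a F0 ha hF0d δ hδ0
  have hhd : Y23.Hd a h := hd_of_hn hh
  obtain ⟨c, hc⟩ : ∃ c : ℂ, c = Y23.TT h 0 := ⟨_, rfl⟩
  have hsub : Y23.Hd a (fun x => F0 x - h x) := hF0d.sub hhd
  have hc1 : ‖c - 1‖ ^ 2 ≤ a / Real.pi * δ := by
    have h1 := Y23.norm_TT_le ha hsub.1 0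
    rw [Y23.TT_sub hF0d.1 hhd.1, hF0.2.1, ← hc, Complex.zero_re, abs_zero, mul_zero, Real.exp_zero, mul_one, norm_sub_rev] at h1
    have h2 := Y23.N2_le_LL hsub
    refine h1.trans ?_
    calc 2 * a * Y23.N2 (fun x => F0 x - h x) = a / Real.pi * (2 * Real.pi * Y23.N2 (fun x => F0 x - h x)) := by field_simp
      _ ≤ a / Real.pi * δ := by gcongr; exact h2.trans hLL
  have hc2 : ‖c - 1‖ ≤ 1 / 2 := by
    have h1 : ‖c - 1‖ ^ 2 ≤ (1 / 2 : ℝ) ^ 2 := hc1.trans (hδ1.trans (by norm_num))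
    exact (sq_le_sq₀ (norm_nonneg _) (by norm_num)).1 h1
  have hc3 : 1 / 2 ≤ ‖c‖ := by
    have h1 : ‖(1 : ℂ)‖ ≤ ‖c‖ + ‖c - 1‖ := by
      have e : (1 : ℂ) = c - (c - 1) := by ring
      calc ‖(1 : ℂ)‖ = ‖c - (c - 1)‖ := by rw [← e]
        _ ≤ ‖c‖ + ‖c - 1‖ := norm_sub_le _ _
    rw [norm_one] at h1
    linarith
  have hc0 : c ≠ 0 := by
    intro h0
    rw [h0, norm_zero] at hc3
    norm_num at hc3
  -- the competitor
  obtain ⟨h', hh'⟩ : ∃ h' : ℝ → ℂ, h' = fun x => c⁻¹ * h x := ⟨_, rfl⟩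
  have hn' : Y23.G.F.Hn a (n : ℕ∞) h' := by rw [hh']; exact hh.smul _
  have hT' : Y23.TT h' 0 = 1 := by
    rw [hh', Y23.TT_smul, ← hc, inv_mul_cancel₀ hc0]
  have hd' : Y23.Hd a h' := hd_of_hn hn'
  have hcF : Y23.Hd a (fun x => (c - 1) * F0 x) := hF0d.smul _
  have hLL' : Y23.LL (fun x => F0 x - h' x) ≤ (8 + 8 * (a / Real.pi) * L0) * δ := by
    have e : (fun x => F0 x - h' x) = fun x => c⁻¹ * ((fun x => (fun x => F0 x - h x) x + (fun x => (c - 1) * F0 x) x) x) := by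
      funext x
      rw [hh']
      simp only
      field_simp
      ring
    rw [e, Y23.LL_smul]
    have h1 := Y23.LL_add_le hsub hcF
    rw [Y23.LL_smul, ← hL0] at h1
    have h2 : ‖c⁻¹‖ ^ 2 ≤ 4 := by
      rw [norm_inv]
      have h3 : ‖c‖⁻¹ ≤ 2 := by
        rw [inv_le_comm₀ (norm_pos_iff.2 hc0) (by norm_num)]
        linarith
      have h4 : 0 ≤ ‖c‖⁻¹ := inv_nonneg.2 (norm_nonneg _)
      nlinarith
    have h3 : Y23.LL (fun x => (fun x => F0 x - h x) x + (fun x => (c - 1) * F0 x) x) ≤ 2 * δ + 2 * (a / Real.pi * δ * L0) := by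
      refine h1.trans ?_
      have h4 := mul_le_mul_of_nonneg_right hc1 hL00
      linarith
    calc ‖c⁻¹‖ ^ 2 * Y23.LL (fun x => (fun x => F0 x - h x) x + (fun x => (c - 1) * F0 x) x)
        ≤ 4 * (2 * δ + 2 * (a / Real.pi * δ * L0)) := mul_le_mul h2 h3 (Y23.LL_nonneg _) (by norm_num)
      _ = _ := by ring
  have hdf : Y23.Hd a (fun x => F0 x - h' x) := hF0d.sub hd'
  have hQd : Y23.QQ (fun x => F0 x - h' x) ≤ η := by
    obtain ⟨h1, h2⟩ := hSS _ hdf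
    calc Y23.QQ (fun x => F0 x - h' x) ≤ |Y23.QQ (fun x => F0 x - h' x)| := le_abs_self _
      _ ≤ Y23.SS (fun x => F0 x - h' x) := Y23.QQ_abs_le h1
      _ ≤ C1 * Y23.LL (fun x => F0 x - h' x) := h2
      _ ≤ C1 * ((8 + 8 * (a / Real.pi) * L0) * δ) := by gcongr
      _ = D * δ := by rw [hD]; ring
      _ ≤ η := hδ2
  have key : ∀ g : ℝ → ℂ, Y23.Hd a g → Y23.TT g 0 = 1 → Y23.QQ (fun x => F0 x - g x) = Y23.QQ g - Y23.QQ F0 := by
    intro g hg hg1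
    rw [QQ_sub ha hF0d hg, horth g (hn_top hg), hg1, map_one, mul_one, Complex.ofReal_re]
    ring
  have hh0 : Y23.QQ h' ≤ Y23.QQ F0 + η := by
    rw [key h' hd' hT'] at hQd
    linarith
  refine ⟨n, fun ν f F hν hf hF => ?_⟩
  have hQF : Y23.QQ F = Y23.QQ F0 := le_antisymm (hF.2.2 F0 hF0.1 hF0.2.1) (hF0.2.2 F hF.1 hF.2.1)
  have hTF : ∀ w, Y23.TT F w = Y23.TT F0 w := huniq F hF
  have hfd : Y23.Hd a f := hd_of_hn hf.1
  have h1 : Y23.QQ f ≤ Y23.QQ F0 + η := (hf.2.2 h' (hn_mono hν hn') hT').trans hh0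
  refine ⟨by rw [hQF]; linarith, fun w hw => ?_⟩
  have h2 : Y23.QQ (fun x => F0 x - f x) ≤ η := by
    rw [key f hfd hf.2.1]
    linarith
  have hfs : Y23.Hd a (fun x => F0 x - f x) := hF0d.sub hfd
  have h3 := hlow _ hfs
  have h4 := Y23.norm_TT_le ha hfs.1 w
  rw [Y23.TT_sub hF0d.1 hfd.1, norm_sub_rev] at h4
  have h5 : Real.exp (2 * a * |w.re|) ≤ Real.exp (2 * a * R) := by
    refine Real.exp_le_exp.2 (mul_le_mul_of_nonneg_left ?_ (by positivity))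
    exact (Complex.abs_re_le_norm w).trans hw
  have h6 : ‖Y23.TT f w - Y23.TT F0 w‖ ^ 2 ≤ K * Y23.N2 (fun x => F0 x - f x) := by
    refine h4.trans ?_
    rw [hK]
    have := Y23.N2_nonneg (fun x => F0 x - f x)
    gcongr
  have h7 : ‖Y23.TT f w - Y23.TT F0 w‖ ^ 2 ≤ ε ^ 2 := by
    have h8 : l * ‖Y23.TT f w - Y23.TT F0 w‖ ^ 2 ≤ l * ε ^ 2 := by
      calc l * ‖Y23.TT f w - Y23.TT F0 w‖ ^ 2 ≤ l * (K * Y23.N2 (fun x => F0 x - f x)) := by gcongr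
        _ = K * (l * Y23.N2 (fun x => F0 x - f x)) := by ring
        _ ≤ K * η := by gcongr; exact h3.trans h2
        _ ≤ l * ε ^ 2 := hη2
    exact le_of_mul_le_mul_left h8 hl
  rw [hTF]
  exact (sq_le_sq₀ (norm_nonneg _) hε.le).1 h7

end Pool.Agent.Q96.EX
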