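import Pool.Agent.Q240.EX.Stm
import Pool.Agent.Q240.EX.Stm2
import Pool.Agent.Q240.CD.AllZ
import Pool.Agent.Q96.EX.Nu

set_option autoImplicit false

/-! # Project EX (helper240), job UZ: the collapse of Weil's form in finite degree (helper96) -/

open Polynomial Filter Topology
open Pool.Agent.Q240.EX
open Pool.Agent.Q240.CD

namespace Pool.Agent.Q96.EX

lemma li_pos : ∀ᶠ p : ℝ × ℕ in Li, 0 < p.1 := by
  unfold Li
  exact ((tendsto_comap (f := fun p : ℝ × ℕ => p.1)).eventually (eventually_gt_atTop 0)).filter_mono inf_le_left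

lemma en_pos {γ : ℕ → ℝ} (hE : EN γ) (j : ℕ) : 0 < γ j :=
  lt_of_lt_of_le hE.pos (hE.mono.monotone (Nat.zero_le j))

/-- the masses at the squares of the ordinates -/
noncomputable def Mz (γ : ℕ → ℝ) (p : ℝ × ℕ) : ℕ → ℝ := Mn (fun j => γ j ^ 2) (fun j => (mz (γ j : ℂ) : ℝ)) p

lemma LZ_Mz {γ : ℕ → ℝ} (hE : EN γ) {a : ℝ} {n : ℕ} (ha : 0 < a) (P : ℝ[X]) (hP : P.natDegree ≤ 2 * n) :
    LZ a n (P * P) = Lp (fun j => γ j ^ 2) (Mz γ (a, n)) P :=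
  LZ_Lp a_spB a_sumZ (en_pos hE) hE.tot (fun _ => n) ha P hP

lemma defn (hRH : RHy) {γ : ℕ → ℝ} (hE : EN γ) {a : ℝ} {n : ℕ} (ha : 0 < a) {q : ℝ[X]} (hq : q.natDegree ≤ n) (hq0 : q ≠ 0) :
    0 < Lam (fun j => γ j ^ 2) (Mz γ (a, n)) (q * q) := by
  by_contra hcon
  push Not at hcon
  have hd : (q.comp (X ^ 2)).natDegree ≤ 2 * n := by
    rw [natDegree_comp, natDegree_X_pow]
    omega
  obtain ⟨f, hf, h1, -, h2⟩ := real_elem a_repInv a_form ha (q.comp (X ^ 2)) hd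
  rw [LZ_Mz hE ha _ hd, Lp_even _ _ (fun j => sq_nonneg _)] at h1
  have h3 : Y23.QQ f ≤ 0 := by rw [h1]; exact hcon
  have h4 := a_posZ hRH a _ f ha hf h3
  have hx1 : 0 < xk a (n + 1) := by unfold xk; positivity
  have h5 : ∀ x : ℝ, x ∈ Set.Ioo 0 (xk a (n + 1)) → (q.comp (X ^ 2)).eval x = 0 := by
    intro x hx
    have h6 := h2 (x : ℂ)
    rw [h4, aeval_real] at h6
    rcases mul_eq_zero.1 h6.symm with h7 | h7
    · exact_mod_cast h7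
    · exfalso
      obtain ⟨k, -, hk⟩ := ((a_spB a n).2.2.2.2.2.2 (x : ℂ)).1 h7
      have h8 : x ^ 2 = xk a (n + 1 + k) ^ 2 := by exact_mod_cast hk
      have h9 : xk a (n + 1) ≤ xk a (n + 1 + k) := by
        unfold xk
        refine div_le_div_of_nonneg_right ?_ ha.le
        refine mul_le_mul_of_nonneg_left ?_ Real.pi_pos.le
        push_cast
        have : (0 : ℝ) ≤ k := Nat.cast_nonneg k
        linarith
      have h10 : x ^ 2 < xk a (n + 1 + k) ^ 2 := pow_lt_pow_left₀ (lt_of_lt_of_le hx.2 h9) hx.1.le two_ne_zero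
      exact h10.ne h8
  have h6 : q.comp (X ^ 2) = 0 := by
    refine Polynomial.eq_zero_of_infinite_isRoot _ ((Set.Ioo_infinite hx1).mono fun x hx => ?_)
    exact h5 x hx
  rcases comp_eq_zero_iff.1 h6 with h7 | h7
  · exact hq0 h7
  · have h8 := h7.2
    have h9 := congrArg natDegree h8
    rw [natDegree_X_pow, natDegree_C] at h9
    omega

lemma Lp_nonneg {g M : ℕ → ℝ} (hM : ∀ j, 0 ≤ M j) (P : ℝ[X]) : 0 ≤ Lp g M P := by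
  unfold Lp
  exact tsum_nonneg fun j => mul_nonneg (div_nonneg (hM j) zero_le_two) (by positivity)

lemma norm_three_sq (x y w : ℂ) : ‖x + y + w‖ ^ 2 ≤ 3 * (‖x‖ ^ 2 + ‖y‖ ^ 2 + ‖w‖ ^ 2) := by
  have h1 : ‖x + y + w‖ ≤ ‖x‖ + ‖y‖ + ‖w‖ := norm_add₃_le
  have h2 : ‖x + y + w‖ ^ 2 ≤ (‖x‖ + ‖y‖ + ‖w‖) ^ 2 := pow_le_pow_left₀ (norm_nonneg _) h1 2
  nlinarith [sq_nonneg (‖x‖ - ‖y‖), sq_nonneg (‖y‖ - ‖w‖), sq_nonneg (‖x‖ - ‖w‖)]

theorem uZ (hMain : S_MainU) (hFam : S_Fam2Z) (hLim : S_LimS2) : S_UZ := by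
  intro hRH γ hE R ε hε
  have hγ := en_pos hE
  obtain ⟨g, hg⟩ : ∃ g : ℕ → ℝ, g = fun j => γ j ^ 2 := ⟨_, rfl⟩
  obtain ⟨M, hM⟩ : ∃ M : ℝ × ℕ → ℕ → ℝ, M = Mz γ := ⟨_, rfl⟩
  have hgm : StrictMono g := by
    rw [hg]
    exact fun i j hij => pow_lt_pow_left₀ (hE.mono hij) (hγ i).le two_ne_zero
  have hg0 : 0 < g 0 := by rw [hg]; exact pow_pos (hγ 0) 2
  have hgn : ∀ j, 0 ≤ g j := by rw [hg]; exact fun j => sq_nonneg _
  have hm1 : ∀ j, (1 : ℝ) ≤ (mz (γ j : ℂ) : ℝ) := fun j => by exact_mod_cast hE.m1 j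
  obtain ⟨hPM, hF2⟩ : (∀ (a : ℝ) (n : ℕ), 0 < a → PM g (M (a, n)) n) ∧ Fam2 Li g (fun p => p.2) M := by
    rw [hM, hg]
    exact hFam (fun j => γ j ^ 2) (fun j => (mz (γ j : ℂ) : ℝ)) (hg ▸ hgm) (pow_pos (hγ 0) 2) hm1 hE.sum
      (fun a n ha q hq hq0 => defn hRH hE ha hq hq0)
  have hLZ : ∀ {a : ℝ} {n : ℕ} (_ : 0 < a) (P : ℝ[X]) (_ : P.natDegree ≤ 2 * n), LZ a n (P * P) = Lp g (M (a, n)) P := by
    intro a n ha P hP
    rw [hM, hg]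
    exact LZ_Mz hE ha P hP
  -- the extremal polynomials
  obtain ⟨q0, hq0⟩ : ∃ q0 : ℝ × ℕ → ℝ[X], ∀ p : ℝ × ℕ, 0 < p.1 → Ex g (M p) p.2 0 (q0 p) := by
    classical
    refine ⟨fun p => if h : 0 < p.1 then (a_ext g (M p) p.2 (hPM p.1 p.2 h) 0).choose else 0, fun p hp => ?_⟩
    simp only [dif_pos hp]
    exact (a_ext g (M p) p.2 (hPM p.1 p.2 hp) 0).choose_spec
  have hexE : ∀ᶠ p in Li, Ex g (M p) p.2 0 (q0 p) := li_pos.mono fun p hp => hq0 p hp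
  obtain ⟨hGd, -⟩ := a_gcb g hgm hg0 hF2.gsum
  obtain ⟨C0, hC0⟩ := (isCompact_closedBall (0 : ℂ) R).exists_bound_of_continuousOn (f := fun z : ℂ => GC g (z ^ 2))
    (hGd.continuous.comp (continuous_pow 2)).continuousOn
  obtain ⟨C, hC⟩ : ∃ C : ℝ, C = max C0 0 := ⟨_, rfl⟩
  have hC1 : 0 ≤ C := by rw [hC]; exact le_max_right _ _
  have hC2 : ∀ z : ℂ, ‖z‖ ≤ R → ‖GC g (z ^ 2)‖ ≤ C := by
    intro z hz
    rw [hC]
    exact (hC0 z (by rw [mem_closedBall_zero_iff]; exact hz)).trans (le_max_left _ _)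
  obtain ⟨η, hη⟩ : ∃ η : ℝ, η = min 1 (ε / (6 * (C ^ 2 + 1))) := ⟨_, rfl⟩
  have hη0 : 0 < η := by rw [hη]; exact lt_min one_pos (by positivity)
  have hη1 : η ≤ 1 := by rw [hη]; exact min_le_left _ _
  have hη2 : 3 * C ^ 2 * η ^ 2 ≤ ε / 2 := by
    have h1 : η ≤ ε / (6 * (C ^ 2 + 1)) := by rw [hη]; exact min_le_right _ _
    rw [le_div_iff₀ (by positivity)] at h1
    have h2 : η ^ 2 ≤ η := by nlinarith
    have h3 : C ^ 2 * η ^ 2 ≤ C ^ 2 * η := mul_le_mul_of_nonneg_left h2 (sq_nonneg C)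
    nlinarith
  have hS : ∀ᶠ p : ℝ × ℕ in Li, ∀ z : ℂ, ‖z‖ ≤ R → ‖Sp p.1 p.2 z - 1‖ ≤ η := by
    have h1 := (tendstoLocallyUniformlyOn_iff_forall_isCompact isOpen_univ).1 (tendstoLocallyUniformlyOn_univ.2 hLim)
      (Metric.closedBall 0 R) (Set.subset_univ _) (isCompact_closedBall _ _)
    rw [Metric.tendstoUniformlyOn_iff] at h1
    filter_upwards [h1 η hη0] with p hp z hz
    have h2 := hp z (by rw [mem_closedBall_zero_iff]; exact hz)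
    rw [dist_comm, dist_eq_norm] at h2
    exact h2.le
  have hMu := hMain Li g (fun p => p.2) M hF2 q0 hexE R (ε / 24) (by positivity)
  filter_upwards [hMu, hS, li_pos] with p h1 h2 ha δ hδ f hf z hz
  obtain ⟨P, hP, h3⟩ := a_rep p.1 p.2 f ha hf
  obtain ⟨A, B, hA, hB, h4⟩ := split_re _ P hP
  have h5 : ∀ z : ℂ, Y23.TT f (Complex.I * z) = (aeval z A + Complex.I * aeval z B) * Sp p.1 p.2 z :=
    fun z => by rw [h3, h4]
  have hQ : Y23.QQ f = Lp g (M p) A + Lp g (M p) B := by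
    rw [(a_form p.1 p.2 f A B ha hf hA hB h5).1, hLZ ha A hA, hLZ ha B hB]
  have hMn : ∀ j, 0 ≤ M p j := (hPM p.1 p.2 ha).nonneg
  have hLA : 0 ≤ Lp g (M p) A := Lp_nonneg hMn A
  have hLB : 0 ≤ Lp g (M p) B := Lp_nonneg hMn B
  have hQ0 : 0 ≤ Y23.QQ f := by rw [hQ]; exact add_nonneg hLA hLB
  have hv : ∀ W : ℝ[X], aeval (0 : ℂ) W = ((W.eval 0 : ℝ) : ℂ) := by
    intro W
    have := aeval_real W 0
    rwa [Complex.ofReal_zero] at this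
  have hT0 : Y23.TT f 0 = ((A.eval 0 : ℝ) : ℂ) + Complex.I * ((B.eval 0 : ℝ) : ℂ) := by
    have h6 := h5 0
    rw [mul_zero, (a_spB p.1 p.2).2.2.1, mul_one, hv, hv] at h6
    exact h6
  have hδ0 : δ ≤ Lam g (M p) (q0 p * q0 p) := by
    obtain ⟨hd, he, -⟩ := hq0 p ha
    have hd2 : ((q0 p).comp (X ^ 2)).natDegree ≤ 2 * p.2 := by
      rw [natDegree_comp, natDegree_X_pow]
      omega
    obtain ⟨h, hh, k1, -, k2⟩ := real_elem a_repInv a_form ha ((q0 p).comp (X ^ 2)) hd2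
    rw [hLZ ha _ hd2, Lp_even _ _ hgn] at k1
    change Y23.QQ h = Lam g (M p) (q0 p * q0 p) at k1
    rw [← k1]
    refine hδ h hh ?_
    have k3 := k2 0
    rw [mul_zero, (a_spB p.1 p.2).2.2.1, mul_one, hv, eval_comp, eval_pow, eval_X, zero_pow two_ne_zero, he,
      Complex.ofReal_one] at k3
    exact k3
  rcases le_or_gt δ 0 with hneg | hpos
  · exact (mul_nonpos_of_nonpos_of_nonneg hneg (sq_nonneg _)).trans (mul_nonneg hε.le hQ0)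
  have hT : δ * ‖Y23.TT f 0‖ ^ 2 ≤ Y23.QQ f := by
    by_cases h0 : Y23.TT f 0 = 0
    · rw [h0, norm_zero, zero_pow two_ne_zero, mul_zero]
      exact hQ0
    · have k1 := hδ (fun x => (Y23.TT f 0)⁻¹ * f x) (hf.smul _) (by rw [Y23.TT_smul, inv_mul_cancel₀ h0])
      rw [Y23.QQ_smul, norm_inv, inv_pow] at k1
      have h6 : 0 < ‖Y23.TT f 0‖ ^ 2 := pow_pos (norm_pos_iff.2 h0) 2
      rw [← div_eq_inv_mul, le_div_iff₀ h6] at k1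
      exact k1
  have dA : δ * ‖aeval z A - ((A.eval 0 : ℝ) : ℂ) * GC g (z ^ 2)‖ ^ 2 ≤ ε / 24 * Lp g (M p) A := by
    refine (mul_le_mul_of_nonneg_right hδ0 (sq_nonneg _)).trans ?_
    rw [mul_comm]
    exact h1 A hA z hz
  have dB : δ * ‖aeval z B - ((B.eval 0 : ℝ) : ℂ) * GC g (z ^ 2)‖ ^ 2 ≤ ε / 24 * Lp g (M p) B := by
    refine (mul_le_mul_of_nonneg_right hδ0 (sq_nonneg _)).trans ?_
    rw [mul_comm]
    exact h1 B hB z hz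
  rw [← hg]
  obtain ⟨u, hu⟩ : ∃ u : ℂ, u = aeval z A - ((A.eval 0 : ℝ) : ℂ) * GC g (z ^ 2) := ⟨_, rfl⟩
  obtain ⟨v, hv'⟩ : ∃ v : ℂ, v = aeval z B - ((B.eval 0 : ℝ) : ℂ) * GC g (z ^ 2) := ⟨_, rfl⟩
  obtain ⟨S, hS'⟩ : ∃ S : ℂ, S = Sp p.1 p.2 z := ⟨_, rfl⟩
  obtain ⟨T, hT'⟩ : ∃ T : ℂ, T = Y23.TT f 0 := ⟨_, rfl⟩
  obtain ⟨G, hG⟩ : ∃ G : ℂ, G = GC g (z ^ 2) := ⟨_, rfl⟩
  have hid : Y23.TT f (Complex.I * z) - Y23.TT f 0 * GC g (z ^ 2) = S * u + (Complex.I * S) * v + T * G * (S - 1) := by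
    rw [h5 z, hu, hv', hT', hT0, hG, hS']
    ring
  have hS1 : ‖S - 1‖ ≤ η := by rw [hS']; exact h2 z hz
  have hS2 : ‖S‖ ≤ 2 := by
    have e : S = (S - 1) + 1 := by ring
    calc ‖S‖ = ‖(S - 1) + 1‖ := by rw [← e]
      _ ≤ ‖S - 1‖ + ‖(1 : ℂ)‖ := norm_add_le _ _
      _ ≤ 2 := by rw [norm_one]; linarith
  have hG1 : ‖G‖ ≤ C := by rw [hG]; exact hC2 z hz
  have b1 : ‖S * u‖ ^ 2 ≤ 4 * ‖u‖ ^ 2 := by
    rw [norm_mul, mul_pow]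
    have : ‖S‖ ^ 2 ≤ 2 ^ 2 := pow_le_pow_left₀ (norm_nonneg _) hS2 2
    nlinarith [sq_nonneg ‖u‖]
  have b2 : ‖(Complex.I * S) * v‖ ^ 2 ≤ 4 * ‖v‖ ^ 2 := by
    rw [norm_mul, norm_mul, Complex.norm_I, one_mul, mul_pow]
    have : ‖S‖ ^ 2 ≤ 2 ^ 2 := pow_le_pow_left₀ (norm_nonneg _) hS2 2
    nlinarith [sq_nonneg ‖v‖]
  have b3 : ‖T * G * (S - 1)‖ ^ 2 ≤ ‖T‖ ^ 2 * (C ^ 2 * η ^ 2) := by
    rw [norm_mul, norm_mul, mul_pow, mul_pow, mul_assoc]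
    have k1 : ‖G‖ ^ 2 ≤ C ^ 2 := pow_le_pow_left₀ (norm_nonneg _) hG1 2
    have k2 : ‖S - 1‖ ^ 2 ≤ η ^ 2 := pow_le_pow_left₀ (norm_nonneg _) hS1 2
    exact mul_le_mul_of_nonneg_left (mul_le_mul k1 k2 (sq_nonneg _) (sq_nonneg _)) (sq_nonneg _)
  rw [← hu] at dA
  rw [← hv'] at dB
  rw [← hT'] at hT
  rw [hid]
  have k3 := norm_three_sq (S * u) ((Complex.I * S) * v) (T * G * (S - 1))
  calc δ * ‖S * u + (Complex.I * S) * v + T * G * (S - 1)‖ ^ 2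
      ≤ δ * (3 * (4 * ‖u‖ ^ 2 + 4 * ‖v‖ ^ 2 + ‖T‖ ^ 2 * (C ^ 2 * η ^ 2))) := by
        refine mul_le_mul_of_nonneg_left (k3.trans ?_) hpos.le
        linarith
    _ = 12 * (δ * ‖u‖ ^ 2) + 12 * (δ * ‖v‖ ^ 2) + (3 * C ^ 2 * η ^ 2) * (δ * ‖T‖ ^ 2) := by ring
    _ ≤ 12 * (ε / 24 * Lp g (M p) A) + 12 * (ε / 24 * Lp g (M p) B) + (ε / 2) * Y23.QQ f := by
        refine add_le_add (add_le_add (by linarith) (by linarith)) ?_
        exact mul_le_mul hη2 hT (mul_nonneg hpos.le (sq_nonneg _)) (by positivity)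
    _ = ε * Y23.QQ f := by rw [hQ]; ring

end Pool.Agent.Q96.EX
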