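import Pool.Agent.Q240.EX.Stm3
import Pool.Agent.Q96.EX.UZ

set_option autoImplicit false

/-! # Project EX (helper240), job UZc: the collapse of Weil's form for all degrees `n ≥ c a²` (helper96) -/

open Polynomial Filter Topology
open Pool.Agent.Q240.EX
open Pool.Agent.Q240.CD

namespace Pool.Agent.Q96.EX

lemma lc_tendsto (c : ℝ) : Tendsto (fun p : ℝ × ℕ => p.1) (Lc c) atTop := by
  unfold Lc
  exact tendsto_comap.mono_left inf_le_left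

lemma lc_mem (c : ℝ) : ∀ᶠ p : ℝ × ℕ in Lc c, ⌈c * p.1 ^ 2⌉₊ ≤ p.2 := by
  unfold Lc
  exact Eventually.filter_mono inf_le_right (eventually_principal.2 fun p hp => hp)

/-- `Li ≤ Lc c` -/
theorem liLc : S_LiLc := by
  intro c hc
  have h1 : ∀ᶠ p : ℝ × ℕ in Li, 0 < p.1 := li_pos
  have h2 : ∀ᶠ p : ℝ × ℕ in Li, c ≤ (p.2 : ℝ) / p.1 ^ 2 := by
    unfold Li
    exact ((tendsto_comap (f := fun p : ℝ × ℕ => (p.2 : ℝ) / p.1 ^ 2)).eventually (eventually_ge_atTop c)).filter_mono inf_le_right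
  have h3 : ∀ᶠ p : ℝ × ℕ in Li, ⌈c * p.1 ^ 2⌉₊ ≤ p.2 := by
    filter_upwards [h1, h2] with p ha h
    rw [le_div_iff₀ (by positivity)] at h
    exact Nat.ceil_le.2 h
  have h4 : Li ≤ Filter.comap (fun p : ℝ × ℕ => p.1) atTop := by
    unfold Li
    exact inf_le_left
  unfold Lc
  exact le_inf h4 (le_principal_iff.2 h3)

/-- the products are bounded on discs -/
lemma sp_bdd {c : ℝ} (hc : 0 < c) (R : ℝ) : ∃ E : ℝ, 0 < E ∧
    ∀ᶠ p : ℝ × ℕ in Lc c, ∀ z : ℂ, ‖z‖ ≤ R → ‖Sp p.1 p.2 z‖ ^ 2 ≤ E := by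
  refine ⟨Real.exp (40 * R ^ 2 * (1 / (Real.pi ^ 2 * c))), Real.exp_pos _, ?_⟩
  filter_upwards [lc_mem c, (lc_tendsto c).eventually (eventually_gt_atTop 0),
    (lc_tendsto c).eventually (eventually_ge_atTop (R / (Real.pi * c)))] with p h1 ha h2 z hz
  have hpi := Real.pi_pos
  have hR : 0 ≤ R := (norm_nonneg z).trans hz
  have hn : c * p.1 ^ 2 ≤ (p.2 : ℝ) := Nat.ceil_le.1 h1
  have hn0 : (0 : ℝ) < (p.2 : ℝ) := lt_of_lt_of_le (by positivity) hn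
  have hn1 : 1 ≤ p.2 := by
    have : 0 < p.2 := by exact_mod_cast hn0
    omega
  have hx : R ≤ xk p.1 (p.2 + 1) := by
    unfold xk
    rw [le_div_iff₀ ha]
    rw [div_le_iff₀ (by positivity)] at h2
    push_cast
    calc R * p.1 ≤ p.1 * (Real.pi * c) * p.1 := mul_le_mul_of_nonneg_right h2 ha.le
      _ = Real.pi * (c * p.1 ^ 2) := by ring
      _ ≤ Real.pi * ((p.2 : ℝ) + 1) := by
          refine mul_le_mul_of_nonneg_left ?_ hpi.le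
          linarith
  have h3 := a_near p.1 p.2 z ha ((Complex.abs_re_le_norm z).trans (hz.trans hx)) ((Complex.abs_im_le_norm z).trans (hz.trans hx))
  obtain ⟨-, h4, h5⟩ := a_sn p.1 p.2 ha hn1
  have hs0 : 0 ≤ sn p.1 p.2 := le_trans (by positivity) h4
  have hs1 : sn p.1 p.2 ≤ 1 / (Real.pi ^ 2 * c) := by
    refine h5.trans ?_
    rw [div_le_div_iff₀ (by positivity) (by positivity), one_mul]
    nlinarith [mul_le_mul_of_nonneg_left hn (sq_nonneg Real.pi)]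
  refine h3.trans (Real.exp_le_exp.2 ?_)
  have h6 : z.im ^ 2 ≤ R ^ 2 := by
    rw [← sq_abs z.im]
    exact pow_le_pow_left₀ (abs_nonneg _) ((Complex.abs_im_le_norm z).trans hz) 2
  have h7 : -2 * z.re ^ 2 + 40 * z.im ^ 2 ≤ 40 * R ^ 2 := by nlinarith [sq_nonneg z.re]
  calc (-2 * z.re ^ 2 + 40 * z.im ^ 2) * sn p.1 p.2 ≤ 40 * R ^ 2 * sn p.1 p.2 := mul_le_mul_of_nonneg_right h7 hs0
    _ ≤ 40 * R ^ 2 * (1 / (Real.pi ^ 2 * c)) := mul_le_mul_of_nonneg_left hs1 (by positivity)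

lemma norm_two_sq (x y : ℂ) : ‖x + y‖ ^ 2 ≤ 2 * (‖x‖ ^ 2 + ‖y‖ ^ 2) := by
  have h2 : ‖x + y‖ ^ 2 ≤ (‖x‖ + ‖y‖) ^ 2 := pow_le_pow_left₀ (norm_nonneg _) (norm_add_le x y) 2
  nlinarith [sq_nonneg (‖x‖ - ‖y‖)]

theorem uZc (hMain : S_MainU) (hFam : S_Fam2Zc) : S_UZc := by
  intro hRH γ hE c hc R ε hε
  have hγ := en_pos hE
  obtain ⟨g, hg⟩ : ∃ g : ℕ → ℝ, g = fun j => γ j ^ 2 := ⟨_, rfl⟩
  obtain ⟨M, hM⟩ : ∃ M : ℝ × ℕ → ℕ → ℝ, M = Mz γ := ⟨_, rfl⟩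
  have hgm : StrictMono g := by
    rw [hg]
    exact fun i j hij => pow_lt_pow_left₀ (hE.mono hij) (hγ i).le two_ne_zero
  have hg0 : 0 < g 0 := by rw [hg]; exact pow_pos (hγ 0) 2
  have hgn : ∀ j, 0 ≤ g j := by rw [hg]; exact fun j => sq_nonneg _
  have hm1 : ∀ j, (1 : ℝ) ≤ (mz (γ j : ℂ) : ℝ) := fun j => by exact_mod_cast hE.m1 j
  obtain ⟨hPM, hF2⟩ : (∀ (a : ℝ) (n : ℕ), 0 < a → PM g (M (a, n)) n) ∧ Fam2 (Lc c) g (fun p => p.2) M := by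
    rw [hM, hg]
    exact hFam c hc (fun j => γ j ^ 2) (fun j => (mz (γ j : ℂ) : ℝ)) (hg ▸ hgm) (pow_pos (hγ 0) 2) hm1 hE.sum
      (fun a n ha q hq hq0 => defn hRH hE ha hq hq0)
  have hLZ : ∀ {a : ℝ} {n : ℕ} (_ : 0 < a) (P : ℝ[X]) (_ : P.natDegree ≤ 2 * n), LZ a n (P * P) = Lp g (M (a, n)) P := by
    intro a n ha P hP
    rw [hM, hg]
    exact LZ_Mz hE ha P hP
  obtain ⟨q0, hq0⟩ : ∃ q0 : ℝ × ℕ → ℝ[X], ∀ p : ℝ × ℕ, 0 < p.1 → Ex g (M p) p.2 0 (q0 p) := by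
    classical
    refine ⟨fun p => if h : 0 < p.1 then (a_ext g (M p) p.2 (hPM p.1 p.2 h) 0).choose else 0, fun p hp => ?_⟩
    simp only [dif_pos hp]
    exact (a_ext g (M p) p.2 (hPM p.1 p.2 hp) 0).choose_spec
  have hlp : ∀ᶠ p : ℝ × ℕ in Lc c, 0 < p.1 := (lc_tendsto c).eventually (eventually_gt_atTop 0)
  have hexE : ∀ᶠ p in Lc c, Ex g (M p) p.2 0 (q0 p) := hlp.mono fun p hp => hq0 p hp
  obtain ⟨E, hE0, hEb⟩ := sp_bdd hc R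
  have hMu := hMain (Lc c) g (fun p => p.2) M hF2 q0 hexE R (ε / (2 * E)) (by positivity)
  filter_upwards [hMu, hEb, hlp] with p h1 h2 ha δ hδ f hf z hz
  obtain ⟨P, hP, h3⟩ := a_rep p.1 p.2 f ha hf
  obtain ⟨A, B, hA, hB, h4⟩ := split_re _ P hP
  have h5 : ∀ z : ℂ, Y23.TT f (Complex.I * z) = (aeval z A + Complex.I * aeval z B) * Sp p.1 p.2 z :=
    fun z => by rw [h3, h4]
  have hQ : Y23.QQ f = Lp g (M p) A + Lp g (M p) B := by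
    rw [(a_form p.1 p.2 f A B ha hf hA hB h5).1, hLZ ha A hA, hLZ ha B hB]
  have hMn : ∀ j, 0 ≤ M p j := (hPM p.1 p.2 ha).nonneg
  have hLA : 0 ≤ Lp g (M p) A := Lp_nonneg hMn A
  have hLB : 0 ≤ Lp g (M p) B := Lp_nonneg hMn B
  have hQ0 : 0 ≤ Y23.QQ f := by rw [hQ]; exact add_nonneg hLA hLB
  have hv : ∀ W : ℝ[X], aeval (0 : ℂ) W = ((W.eval 0 : ℝ) : ℂ) := by
    intro W
    have := aeval_real W 0
    rwa [Complex.ofReal_zero] at this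
  have hT0 : Y23.TT f 0 = ((A.eval 0 : ℝ) : ℂ) + Complex.I * ((B.eval 0 : ℝ) : ℂ) := by
    have h6 := h5 0
    rw [mul_zero, (a_spB p.1 p.2).2.2.1, mul_one, hv, hv] at h6
    exact h6
  have hδ0 : δ ≤ Lam g (M p) (q0 p * q0 p) := by
    obtain ⟨hd, he, -⟩ := hq0 p ha
    have hd2 : ((q0 p).comp (X ^ 2)).natDegree ≤ 2 * p.2 := by
      rw [natDegree_comp, natDegree_X_pow]
      omega
    obtain ⟨h, hh, k1, -, k2⟩ := real_elem a_repInv a_form ha ((q0 p).comp (X ^ 2)) hd2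
    rw [hLZ ha _ hd2, Lp_even _ _ hgn] at k1
    change Y23.QQ h = Lam g (M p) (q0 p * q0 p) at k1
    rw [← k1]
    refine hδ h hh ?_
    have k3 := k2 0
    rw [mul_zero, (a_spB p.1 p.2).2.2.1, mul_one, hv, eval_comp, eval_pow, eval_X, zero_pow two_ne_zero, he,
      Complex.ofReal_one] at k3
    exact k3
  rcases le_or_gt δ 0 with hneg | hpos
  · exact (mul_nonpos_of_nonpos_of_nonneg hneg (sq_nonneg _)).trans (mul_nonneg hε.le hQ0)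
  have dA : δ * ‖aeval z A - ((A.eval 0 : ℝ) : ℂ) * GC g (z ^ 2)‖ ^ 2 ≤ ε / (2 * E) * Lp g (M p) A := by
    refine (mul_le_mul_of_nonneg_right hδ0 (sq_nonneg _)).trans ?_
    rw [mul_comm]
    exact h1 A hA z hz
  have dB : δ * ‖aeval z B - ((B.eval 0 : ℝ) : ℂ) * GC g (z ^ 2)‖ ^ 2 ≤ ε / (2 * E) * Lp g (M p) B := by
    refine (mul_le_mul_of_nonneg_right hδ0 (sq_nonneg _)).trans ?_
    rw [mul_comm]
    exact h1 B hB z hz
  rw [← hg]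
  obtain ⟨u, hu⟩ : ∃ u : ℂ, u = aeval z A - ((A.eval 0 : ℝ) : ℂ) * GC g (z ^ 2) := ⟨_, rfl⟩
  obtain ⟨v, hv'⟩ : ∃ v : ℂ, v = aeval z B - ((B.eval 0 : ℝ) : ℂ) * GC g (z ^ 2) := ⟨_, rfl⟩
  obtain ⟨S, hS'⟩ : ∃ S : ℂ, S = Sp p.1 p.2 z := ⟨_, rfl⟩
  have hid : Y23.TT f (Complex.I * z) - Y23.TT f 0 * (GC g (z ^ 2) * Sp p.1 p.2 z) = S * u + (Complex.I * S) * v := by
    rw [h5 z, hu, hv', hT0, hS']
    ring
  have hS1 : ‖S‖ ^ 2 ≤ E := by rw [hS']; exact h2 z hz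
  have b1 : ‖S * u‖ ^ 2 ≤ E * ‖u‖ ^ 2 := by
    rw [norm_mul, mul_pow]
    exact mul_le_mul_of_nonneg_right hS1 (sq_nonneg _)
  have b2 : ‖(Complex.I * S) * v‖ ^ 2 ≤ E * ‖v‖ ^ 2 := by
    rw [norm_mul, norm_mul, Complex.norm_I, one_mul, mul_pow]
    exact mul_le_mul_of_nonneg_right hS1 (sq_nonneg _)
  rw [← hu] at dA
  rw [← hv'] at dB
  rw [hid]
  have k3 := norm_two_sq (S * u) ((Complex.I * S) * v)
  have k4 : 2 * E * (ε / (2 * E)) = ε := by field_simp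
  calc δ * ‖S * u + (Complex.I * S) * v‖ ^ 2
      ≤ δ * (2 * (E * ‖u‖ ^ 2 + E * ‖v‖ ^ 2)) := by
        refine mul_le_mul_of_nonneg_left (k3.trans ?_) hpos.le
        linarith
    _ = 2 * E * (δ * ‖u‖ ^ 2 + δ * ‖v‖ ^ 2) := by ring
    _ ≤ 2 * E * (ε / (2 * E) * Lp g (M p) A + ε / (2 * E) * Lp g (M p) B) := by
        refine mul_le_mul_of_nonneg_left (add_le_add dA dB) (by positivity)
    _ = (2 * E * (ε / (2 * E))) * (Lp g (M p) A + Lp g (M p) B) := by ring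
    _ = ε * Y23.QQ f := by rw [k4, hQ]

/-- `S_UZ` from `S_UZc` -/
theorem uz (hZ : S_UZc) (hLim : S_LimS2) : S_UZ := by
  intro hRH γ hE R ε hε
  have hγ := en_pos hE
  obtain ⟨g, hg⟩ : ∃ g : ℕ → ℝ, g = fun j => γ j ^ 2 := ⟨_, rfl⟩
  have hgm : StrictMono g := by
    rw [hg]
    exact fun i j hij => pow_lt_pow_left₀ (hE.mono hij) (hγ i).le two_ne_zero
  have hg0 : 0 < g 0 := by rw [hg]; exact pow_pos (hγ 0) 2
  have hgs : Summable fun j => 1 / g j := by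
    have hm1 : ∀ j, (1 : ℝ) ≤ (mz (γ j : ℂ) : ℝ) := fun j => by exact_mod_cast hE.m1 j
    have hgp : ∀ j, 0 < g j := fun j => lt_of_lt_of_le hg0 (hgm.monotone (Nat.zero_le j))
    have h1 : Summable fun j => (mz (γ j : ℂ) : ℝ) / g j ^ (7 / 8 : ℝ) := by rw [hg]; exact hE.sum
    have h2 : ∀ j, g 0 ≤ g j := fun j => hgm.monotone (Nat.zero_le j)
    refine Summable.of_nonneg_of_le (fun j => (by have := hgp j; positivity)) (fun j => ?_) (h1.mul_left (g 0 ^ (1 / 8 : ℝ))⁻¹)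
    have e : g j = g j ^ (1 / 8 : ℝ) * g j ^ (7 / 8 : ℝ) := by
      rw [← Real.rpow_add (hgp j)]
      norm_num
    have h3 : g 0 ^ (1 / 8 : ℝ) ≤ g j ^ (1 / 8 : ℝ) := Real.rpow_le_rpow hg0.le (h2 j) (by norm_num)
    have h4 : 0 < g 0 ^ (1 / 8 : ℝ) := Real.rpow_pos_of_pos hg0 _
    have h5 : 0 < g j ^ (7 / 8 : ℝ) := Real.rpow_pos_of_pos (hgp j) _
    calc 1 / g j = 1 / (g j ^ (1 / 8 : ℝ) * g j ^ (7 / 8 : ℝ)) := by rw [← e]
      _ ≤ 1 / (g 0 ^ (1 / 8 : ℝ) * g j ^ (7 / 8 : ℝ)) := by gcongr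
      _ = (g 0 ^ (1 / 8 : ℝ))⁻¹ * (1 / g j ^ (7 / 8 : ℝ)) := by field_simp
      _ ≤ (g 0 ^ (1 / 8 : ℝ))⁻¹ * ((mz (γ j : ℂ) : ℝ) / g j ^ (7 / 8 : ℝ)) := by
          refine mul_le_mul_of_nonneg_left ?_ (inv_nonneg.2 h4.le)
          exact div_le_div_of_nonneg_right (hm1 j) h5.le
  obtain ⟨hGd, -⟩ := a_gcb g hgm hg0 hgs
  obtain ⟨C0, hC0⟩ := (isCompact_closedBall (0 : ℂ) R).exists_bound_of_continuousOn (f := fun z : ℂ => GC g (z ^ 2))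
    (hGd.continuous.comp (continuous_pow 2)).continuousOn
  obtain ⟨C, hC⟩ : ∃ C : ℝ, C = max C0 0 := ⟨_, rfl⟩
  have hC1 : 0 ≤ C := by rw [hC]; exact le_max_right _ _
  have hC2 : ∀ z : ℂ, ‖z‖ ≤ R → ‖GC g (z ^ 2)‖ ≤ C := by
    intro z hz
    rw [hC]
    exact (hC0 z (by rw [mem_closedBall_zero_iff]; exact hz)).trans (le_max_left _ _)
  obtain ⟨η, hη⟩ : ∃ η : ℝ, η = min 1 (ε / (4 * (C ^ 2 + 1))) := ⟨_, rfl⟩
  have hη0 : 0 < η := by rw [hη]; exact lt_min one_pos (by positivity)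
  have hη1 : η ≤ 1 := by rw [hη]; exact min_le_left _ _
  have hη2 : 2 * (C ^ 2 * η ^ 2) ≤ ε / 2 := by
    have h1 : η ≤ ε / (4 * (C ^ 2 + 1)) := by rw [hη]; exact min_le_right _ _
    rw [le_div_iff₀ (by positivity)] at h1
    have h2 : η ^ 2 ≤ η := by nlinarith
    have h3 : C ^ 2 * η ^ 2 ≤ C ^ 2 * η := mul_le_mul_of_nonneg_left h2 (sq_nonneg C)
    nlinarith
  have hS : ∀ᶠ p : ℝ × ℕ in Li, ∀ z : ℂ, ‖z‖ ≤ R → ‖Sp p.1 p.2 z - 1‖ ≤ η := by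
    have h1 := (tendstoLocallyUniformlyOn_iff_forall_isCompact isOpen_univ).1 (tendstoLocallyUniformlyOn_univ.2 hLim)
      (Metric.closedBall 0 R) (Set.subset_univ _) (isCompact_closedBall _ _)
    rw [Metric.tendstoUniformlyOn_iff] at h1
    filter_upwards [h1 η hη0] with p hp z hz
    have h2 := hp z (by rw [mem_closedBall_zero_iff]; exact hz)
    rw [dist_comm, dist_eq_norm] at h2
    exact h2.le
  have hU := (hZ hRH γ hE 1 one_pos R (ε / 4) (by positivity)).filter_mono (liLc 1 one_pos)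
  filter_upwards [hU, hS, li_pos] with p h1 h2 ha δ hδ f hf z hz
  have k0 := h1 δ hδ f hf z hz
  rw [← hg] at k0 ⊢
  have hQ0 : 0 ≤ Y23.QQ f := by
    by_contra hcon
    push Not at hcon
    have h3 := a_posZ hRH p.1 _ f ha hf hcon.le
    rw [Y23.QQ_zero_of_TT h3] at hcon
    exact lt_irrefl _ hcon
  rcases le_or_gt δ 0 with hneg | hpos
  · exact (mul_nonpos_of_nonpos_of_nonneg hneg (sq_nonneg _)).trans (mul_nonneg hε.le hQ0)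
  have hT : δ * ‖Y23.TT f 0‖ ^ 2 ≤ Y23.QQ f := by
    by_cases h0 : Y23.TT f 0 = 0
    · rw [h0, norm_zero, zero_pow two_ne_zero, mul_zero]
      exact hQ0
    · have k1 := hδ (fun x => (Y23.TT f 0)⁻¹ * f x) (hf.smul _) (by rw [Y23.TT_smul, inv_mul_cancel₀ h0])
      rw [Y23.QQ_smul, norm_inv, inv_pow] at k1
      have h6 : 0 < ‖Y23.TT f 0‖ ^ 2 := pow_pos (norm_pos_iff.2 h0) 2
      rw [← div_eq_inv_mul, le_div_iff₀ h6] at k1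
      exact k1
  obtain ⟨T, hT'⟩ : ∃ T : ℂ, T = Y23.TT f 0 := ⟨_, rfl⟩
  obtain ⟨G, hG⟩ : ∃ G : ℂ, G = GC g (z ^ 2) := ⟨_, rfl⟩
  obtain ⟨S, hS'⟩ : ∃ S : ℂ, S = Sp p.1 p.2 z := ⟨_, rfl⟩
  obtain ⟨F, hF⟩ : ∃ F : ℂ, F = Y23.TT f (Complex.I * z) := ⟨_, rfl⟩
  rw [← hT', ← hG, ← hS', ← hF] at k0
  rw [← hT'] at hT
  rw [← hT', ← hG, ← hF]
  have hS1 : ‖S - 1‖ ≤ η := by rw [hS']; exact h2 z hz
  have hG1 : ‖G‖ ≤ C := by rw [hG]; exact hC2 z hz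
  have b3 : ‖T * G * (S - 1)‖ ^ 2 ≤ ‖T‖ ^ 2 * (C ^ 2 * η ^ 2) := by
    rw [norm_mul, norm_mul, mul_pow, mul_pow, mul_assoc]
    have k1 : ‖G‖ ^ 2 ≤ C ^ 2 := pow_le_pow_left₀ (norm_nonneg _) hG1 2
    have k2 : ‖S - 1‖ ^ 2 ≤ η ^ 2 := pow_le_pow_left₀ (norm_nonneg _) hS1 2
    exact mul_le_mul_of_nonneg_left (mul_le_mul k1 k2 (sq_nonneg _) (sq_nonneg _)) (sq_nonneg _)
  have hid : F - T * G = (F - T * (G * S)) + T * G * (S - 1) := by ring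
  have k3 := norm_two_sq (F - T * (G * S)) (T * G * (S - 1))
  rw [hid]
  calc δ * ‖(F - T * (G * S)) + T * G * (S - 1)‖ ^ 2
      ≤ δ * (2 * (‖F - T * (G * S)‖ ^ 2 + ‖T‖ ^ 2 * (C ^ 2 * η ^ 2))) := by
        refine mul_le_mul_of_nonneg_left (k3.trans ?_) hpos.le
        linarith
    _ = 2 * (δ * ‖F - T * (G * S)‖ ^ 2) + 2 * (C ^ 2 * η ^ 2) * (δ * ‖T‖ ^ 2) := by ring
    _ ≤ 2 * (ε / 4 * Y23.QQ f) + ε / 2 * Y23.QQ f := by
        refine add_le_add (by linarith) ?_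
        exact mul_le_mul hη2 hT (mul_nonneg hpos.le (sq_nonneg _)) (by positivity)
    _ = ε * Y23.QQ f := by ring

end Pool.Agent.Q96.EX
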