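import Pool.Agent.Q240.EX.Stm2
import Pool.Agent.Q96.EX.Nu
import Pool.Agent.Q240.CE.Stm
import Pool.Agent.Q285.CE.Test
import Pool.Agent.Q285.CE.Rat
import Pool.Agent.Q280.CE.SumG
import Pool.Agent.Q261.CE.T1

set_option autoImplicit false

/-! # Project EX (helper240), job NegX: if RH fails the infimum is minus infinity (helper96) -/

open Filter Topology
open Pool.Agent.Q240
open Pool.Agent.Q240.EX
open Pool.Agent.Q240.CD

namespace Pool.Agent.Q96.EX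

attribute [local instance] Y23.Z.ZL

lemma Zs_zeta (s : ℂ) : s ∈ (Y23.G.zd (L := Y23.Z.ZL)).Zs ↔ Y23.IsZ s := by
  rw [Y23.isZ_iff]
  have h := Y23.Z.X_eq (s - 1 / 2)
  rw [add_sub_cancel] at h
  show Y23.Z.ZL.X s = 0 ↔ _
  rw [h, div_eq_zero_iff]
  constructor
  · rintro (h1 | h1)
    · exact h1
    · norm_num at h1
  · exact Or.inl

lemma s_test : CE.S_Test :=
  Pool.Agent.Q285.CE.test (Pool.Agent.Q261.CE.t1 Pool.Agent.Q285.CE.rat Pool.Agent.Q280.CE.sumG)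

/-- a zero to the right of the line, not real -/
lemma right_zero (h : ¬ RHy) : ∃ ρ : Y23.Zt, 1 / 2 < (ρ : ℂ).re ∧ (ρ : ℂ).im ≠ 0 := by
  unfold RHy at h
  push Not at h
  obtain ⟨ρ, hρ⟩ := h
  rcases lt_or_gt_of_ne hρ with h1 | h1
  · refine ⟨Y23.rfZ ρ, ?_, a_noReal _⟩
    rw [Y23.rfZ_val, Complex.sub_re, Complex.one_re, Complex.conj_re]
    linarith
  · exact ⟨ρ, h1, a_noReal ρ⟩

lemma large_s (Q0 b q B : ℝ) (hq : q < 0) : ∃ s : ℝ, Q0 + 2 * (s * b) + s ^ 2 * q < -B := by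
  obtain ⟨u, hu⟩ : ∃ u : ℝ, u = (2 * |b| + |Q0| + |B|) / (-q) := ⟨_, rfl⟩
  have hq' : 0 < -q := by linarith
  have hu0 : 0 ≤ u := by rw [hu]; positivity
  have hu1 : u * (-q) = 2 * |b| + |Q0| + |B| := by rw [hu]; exact div_mul_cancel₀ _ hq'.ne'
  refine ⟨1 + u, ?_⟩
  have h1 : (1 + u) ^ 2 * q = -((1 + u) * (-q)) - (1 + u) * (2 * |b| + |Q0| + |B|) := by
    linear_combination (-(1 + u)) * hu1
  have h2 : (1 + u) * b ≤ (1 + u) * |b| := mul_le_mul_of_nonneg_left (le_abs_self b) (by linarith)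
  have h3 : 0 ≤ u * |Q0| := by positivity
  have h4 : 0 ≤ u * |B| := by positivity
  have h5 : 0 ≤ u * (-q) := by positivity
  have h6 := le_abs_self Q0
  have h7 := le_abs_self B
  rw [h1]
  nlinarith

theorem negX : S_NegX := by
  intro hRH n hn
  obtain ⟨ρ, hρ1, hρ2⟩ := right_zero hRH
  have hev := s_test (D := Y23.G.zd (L := Y23.Z.ZL)) n hn 2 ![(ρ : ℂ), (starRingEnd ℂ) (ρ : ℂ)] (by
      intro i j hij
      have h1 : (starRingEnd ℂ) (ρ : ℂ) ≠ (ρ : ℂ) := by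
        intro h
        exact hρ2 (Complex.conj_eq_iff_im.1 h)
      fin_cases i <;> fin_cases j
      · rfl
      · exact absurd hij.symm h1
      · exact absurd hij h1
      · rfl) (by
      intro i
      rw [Zs_zeta]
      fin_cases i
      · exact ρ.2
      · exact Y23.isZ_conj ρ.2) 0 le_rfl (by
      intro i
      fin_cases i
      · show (0 : ℝ) < (ρ : ℂ).re - 1 / 2
        linarith
      · show (0 : ℝ) < ((starRingEnd ℂ) (ρ : ℂ)).re - 1 / 2
        rw [Complex.conj_re]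
        linarith)
  filter_upwards [hev, eventually_gt_atTop 0] with a h1 ha B
  obtain ⟨f, hf, h2⟩ := h1
  have hfn : ∀ i, Y23.G.F.Hn a (n a : ℕ∞) (f i) := fun i => Tg_Hn ha (hf i)
  -- a combination which vanishes at 0
  obtain ⟨t, ht0, htne⟩ : ∃ t : Fin 2 → ℂ, t 0 * Y23.TT (f 0) 0 + t 1 * Y23.TT (f 1) 0 = 0 ∧ 0 < ∑ i, ‖t i‖ ^ 2 := by
    by_cases h : Y23.TT (f 0) 0 = 0
    · exact ⟨![1, 0], by simp [h], by simp [Fin.sum_univ_two]⟩
    · refine ⟨![-Y23.TT (f 1) 0, Y23.TT (f 0) 0], ?_, ?_⟩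
      · simp only [Matrix.cons_val_zero, Matrix.cons_val_one]
        ring
      · rw [Fin.sum_univ_two]
        simp only [Matrix.cons_val_zero, Matrix.cons_val_one]
        exact add_pos_of_nonneg_of_pos (sq_nonneg _) (pow_pos (norm_pos_iff.2 h) 2)
  obtain ⟨G, hG⟩ : ∃ G : ℝ → ℂ, G = fun x => t 0 * f 0 x + t 1 * f 1 x := ⟨_, rfl⟩
  have hGs : (fun x => ∑ i, t i * f i x) = G := by
    rw [hG]
    funext x
    rw [Fin.sum_univ_two]
  have hGn : Y23.G.F.Hn a (n a : ℕ∞) G := by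
    rw [hG]
    exact ((hfn 0).smul _).add ((hfn 1).smul _)
  have hGd : Y23.Hd a G := hd_of_hn hGn
  have hG0 : Y23.TT G 0 = 0 := by
    rw [hG, Y23.TT_add ((hfn 0).smul (t 0)).1 ((hfn 1).smul (t 1)).1, Y23.TT_smul, Y23.TT_smul, ht0]
  have hGQ : Y23.QQ G < 0 := by
    have h3 := (h2 t).1
    rw [hGs, Y23.Z.QQ_eq ha hGd, mul_zero, zero_mul, Real.exp_zero] at h3
    linarith
  -- the function with value 1
  obtain ⟨e, he⟩ : ∃ e : ℝ → ℂ, e = fun x => (2 * (a : ℂ))⁻¹ * Y23.G.F.ek a 0 x := ⟨_, rfl⟩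
  have hen : Y23.G.F.Hn a (n a : ℕ∞) e := by
    rw [he]
    exact (Y23.G.F.Hn_ek ha (by simp)).smul _
  have hed : Y23.Hd a e := hd_of_hn hen
  have he0 : Y23.TT e 0 = 1 := by
    have h3 := Y23.G.F.TT_ek_self ha 0
    have h4 : Y23.G.F.nd a 0 = 0 := by unfold Y23.G.F.nd; simp
    rw [h4] at h3
    have ha' : (a : ℂ) ≠ 0 := by exact_mod_cast ha.ne'
    rw [he, Y23.TT_smul, h3]
    field_simp
  obtain ⟨s, hs⟩ := large_s (Y23.QQ e) ((Y23.QB e G).re) (Y23.QQ G) B hGQ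
  refine ⟨fun x => e x + (s : ℂ) * G x, hen.add (hGn.smul _), ?_, ?_⟩
  · rw [Y23.TT_add hed.1 (hGd.smul _).1, Y23.TT_smul, hG0, he0, mul_zero, add_zero]
  · have h3 := Y23.bq_line ha 0 hed hGd (s : ℂ)
    unfold Y23.bq Y23.BB at h3
    simp only [zero_mul, sub_zero, Complex.ofReal_zero, Complex.conj_ofReal, Complex.re_ofReal_mul, Complex.norm_real,
      Real.norm_eq_abs, sq_abs] at h3
    rw [h3]
    exact hs

end Pool.Agent.Q96.EX
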